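import Pool.Agent.H84.TO.TargetsR
import Pool.Agent.H84.TO.TargetsH

/-! TST (helper56): shifted test functions. -/

open MeasureTheory Matrix Polynomial
open scoped ENNReal
open Pool.Agent.H84.TO

namespace Pool.Agent.H56.TO

/-- the block diagonal matrix -/
noncomputable def bd {N : ℕ} (p : Matrix (Fin 2) (Fin 2) ℝ × Matrix (Fin N) (Fin N) ℝ) :
    Matrix (Fin (2 + N)) (Fin (2 + N)) ℝ :=
  Matrix.reindex finSumFinEquiv finSumFinEquiv (fromBlocks p.1 0 0 p.2)

theorem bd_charpoly {N : ℕ} (p : Matrix (Fin 2) (Fin 2) ℝ × Matrix (Fin N) (Fin N) ℝ) :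
    (bd p).charpoly = p.1.charpoly * p.2.charpoly := by
  unfold bd
  rw [Matrix.charpoly_reindex, Matrix.charpoly_fromBlocks_zero₁₂]

theorem bd_meas {N : ℕ} : Measurable (bd (N := N)) := by
  refine measurable_pi_iff.2 fun i => measurable_pi_iff.2 fun j => ?_
  change Measurable fun p : Matrix (Fin 2) (Fin 2) ℝ × Matrix (Fin N) (Fin N) ℝ =>
    fromBlocks p.1 0 0 p.2 (finSumFinEquiv.symm i) (finSumFinEquiv.symm j)
  have h1 : ∀ i j, Measurable fun p : Matrix (Fin 2) (Fin 2) ℝ × Matrix (Fin N) (Fin N) ℝ =>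
      p.1 i j := fun i j =>
    (measurable_pi_apply (X := fun _ : Fin 2 => ℝ) j).comp
      ((measurable_pi_apply (X := fun _ : Fin 2 => Fin 2 → ℝ) i).comp measurable_fst)
  have h2 : ∀ i j, Measurable fun p : Matrix (Fin 2) (Fin 2) ℝ × Matrix (Fin N) (Fin N) ℝ =>
      p.2 i j := fun i j =>
    (measurable_pi_apply (X := fun _ : Fin N => ℝ) j).comp
      ((measurable_pi_apply (X := fun _ : Fin N => Fin N → ℝ) i).comp measurable_snd)
  rcases finSumFinEquiv.symm i with x | x <;> rcases finSumFinEquiv.symm j with y | y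
  · exact h1 x y
  · exact measurable_const
  · exact measurable_const
  · exact h2 x y

theorem bd_bound {N : ℕ} (R : ℝ) (B : Matrix (Fin 2) (Fin 2) ℝ) (A : Matrix (Fin N) (Fin N) ℝ)
    (hB : ∀ i j, |B i j| ≤ R) (hA : ∀ i j, |A i j| ≤ R) : ∀ i j, |bd (B, A) i j| ≤ max R 0 := by
  intro i j
  change |fromBlocks B 0 0 A (finSumFinEquiv.symm i) (finSumFinEquiv.symm j)| ≤ max R 0
  rcases finSumFinEquiv.symm i with x | x <;> rcases finSumFinEquiv.symm j with y | y
  · exact (hB x y).trans (le_max_left _ _)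
  · change |(0 : ℝ)| ≤ _
    rw [abs_zero]
    exact le_max_right _ _
  · change |(0 : ℝ)| ≤ _
    rw [abs_zero]
    exact le_max_right _ _
  · exact (hA x y).trans (le_max_left _ _)

theorem det_cont {N : ℕ} :
    Continuous (fun p : Matrix (Fin 2) (Fin 2) ℝ × Matrix (Fin N) (Fin N) ℝ =>
      LinearMap.det (ric p.2 p.1)) := by
  let b := Module.finBasis ℝ (Matrix (Fin N) (Fin 2) ℝ)
  have h1 : (fun p : Matrix (Fin 2) (Fin 2) ℝ × Matrix (Fin N) (Fin N) ℝ =>
      LinearMap.det (ric p.2 p.1)) = fun p => (LinearMap.toMatrix b b (ric p.2 p.1)).det := by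
    funext p
    rw [LinearMap.det_toMatrix]
  rw [h1]
  refine Continuous.matrix_det ?_
  refine continuous_matrix fun i j => ?_
  have h2 : (fun p : Matrix (Fin 2) (Fin 2) ℝ × Matrix (Fin N) (Fin N) ℝ =>
      LinearMap.toMatrix b b (ric p.2 p.1) i j) = fun p => b.coord i (b j * p.1 - p.2 * b j) := by
    funext p
    rw [LinearMap.toMatrix_apply]
    rfl
  rw [h2]
  have h3 : Continuous (b.coord i) := LinearMap.continuous_of_finiteDimensional _
  refine h3.comp ?_
  exact (continuous_const.matrix_mul continuous_fst).sub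
    (continuous_snd.matrix_mul continuous_const)

theorem slice {N : ℕ} (f : Matrix (Fin 2) (Fin 2) ℝ × Matrix (Fin N) (Fin N) ℝ → ℝ)
    (hf : Measurable f) (B : Matrix (Fin 2) (Fin 2) ℝ) :
    Measurable (fun A : Matrix (Fin N) (Fin N) ℝ => f (B, A)) :=
  hf.comp measurable_prodMk_left

theorem tst (hrsd : T_RSD) : T_TST := by
  intro φ B hφ
  have hrs : ∀ (N : ℕ) (B : Matrix (Fin 2) (Fin 2) ℝ) (A : Matrix (Fin N) (Fin N) ℝ),
      Rs B.charpoly A.charpoly = LinearMap.det (ric A B) := fun N B A =>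
    (hrsd (Fin 2) (Fin N) A B).symm
  have h2 : ∀ N : ℕ, Measurable (fun p : Matrix (Fin 2) (Fin 2) ℝ × Matrix (Fin N) (Fin N) ℝ =>
      Rs p.1.charpoly p.2.charpoly * φ (p.1.charpoly * p.2.charpoly)) := by
    intro N
    have h3 : Measurable (fun p : Matrix (Fin 2) (Fin 2) ℝ × Matrix (Fin N) (Fin N) ℝ =>
        φ (p.1.charpoly * p.2.charpoly)) := by
      have h4 := (hφ.meas (2 + N)).comp (bd_meas (N := N))
      have h40 : (fun p : Matrix (Fin 2) (Fin 2) ℝ × Matrix (Fin N) (Fin N) ℝ =>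
          φ (p.1.charpoly * p.2.charpoly)) =
          (fun A : Matrix (Fin (2 + N)) (Fin (2 + N)) ℝ => φ A.charpoly) ∘ (bd (N := N)) := by
        funext p
        rw [Function.comp_apply, bd_charpoly]
      rw [h40]
      exact h4
    have h5 : Measurable (fun p : Matrix (Fin 2) (Fin 2) ℝ × Matrix (Fin N) (Fin N) ℝ =>
        Rs p.1.charpoly p.2.charpoly) := by
      have h6 : (fun p : Matrix (Fin 2) (Fin 2) ℝ × Matrix (Fin N) (Fin N) ℝ =>
          Rs p.1.charpoly p.2.charpoly) = fun p => LinearMap.det (ric p.2 p.1) :=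
        funext fun p => hrs N p.1 p.2
      rw [h6]
      exact det_cont.measurable
    exact h5.mul h3
  have h3 : ∀ N : ℕ, ∀ R : ℝ, ∃ C : ℝ, ∀ (B : Matrix (Fin 2) (Fin 2) ℝ)
      (A : Matrix (Fin N) (Fin N) ℝ), (∀ i j, |B i j| ≤ R) → (∀ i j, |A i j| ≤ R) →
      |Rs B.charpoly A.charpoly * φ (B.charpoly * A.charpoly)| ≤ C := by
    intro N R
    obtain ⟨C1, hC1⟩ := hφ.bdd (2 + N) (max R 0)
    have hK : IsCompact ({B : Matrix (Fin 2) (Fin 2) ℝ | ∀ i j, |B i j| ≤ R} ×ˢ
        {A : Matrix (Fin N) (Fin N) ℝ | ∀ i j, |A i j| ≤ R}) := by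
      have h4 : ∀ n : ℕ, IsCompact {A : Matrix (Fin n) (Fin n) ℝ | ∀ i j, |A i j| ≤ R} := by
        intro n
        have h5 : {A : Matrix (Fin n) (Fin n) ℝ | ∀ i j, |A i j| ≤ R} =
            Set.pi Set.univ (fun _ : Fin n => Set.pi Set.univ fun _ : Fin n =>
              Set.Icc (-R) R) := by
          ext A
          constructor
          · intro h i _ j _
            exact abs_le.1 (h i j)
          · intro h i j
            exact abs_le.2 (h i (Set.mem_univ i) j (Set.mem_univ j))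
        rw [h5]
        exact isCompact_univ_pi fun _ => isCompact_univ_pi fun _ => isCompact_Icc
      exact (h4 2).prod (h4 N)
    obtain ⟨C2, hC2⟩ := hK.exists_bound_of_continuousOn (det_cont (N := N)).continuousOn
    refine ⟨C2 * C1, fun B A hB hA => ?_⟩
    have h6 : |Rs B.charpoly A.charpoly| ≤ C2 := by
      rw [hrs]
      exact hC2 (B, A) ⟨hB, hA⟩
    have h7 : |φ (B.charpoly * A.charpoly)| ≤ C1 := by
      have h8 := hC1 (bd (B, A)) (bd_bound R B A hB hA)
      rwa [bd_charpoly] at h8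
    rw [abs_mul]
    exact mul_le_mul h6 h7 (abs_nonneg _) ((abs_nonneg _).trans h6)
  refine ⟨⟨fun N => ?_, fun N R => ?_⟩, h2, h3⟩
  · exact slice _ (h2 N) B
  · obtain ⟨C, hC⟩ := h3 N (max R (∑ i, ∑ j, |B i j|))
    refine ⟨C, fun A hA => hC B A (fun i j => ?_) fun i j => (hA i j).trans (le_max_left _ _)⟩
    refine le_trans ?_ (le_max_right _ _)
    refine (Finset.single_le_sum (f := fun j => |B i j|) (fun _ _ => abs_nonneg _)
      (Finset.mem_univ j)).trans ?_
    exact Finset.single_le_sum (f := fun i => ∑ j, |B i j|)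
      (fun _ _ => Finset.sum_nonneg fun _ _ => abs_nonneg _) (Finset.mem_univ i)

end Pool.Agent.H56.TO
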